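import Pool.Agent.Helper87.TR.CCore

/-! Project TR, leaf C, the finite core (moduli coprime to ten): remainders of the auxiliary sifting problem in a class. -/

set_option autoImplicit false

namespace Pool.Agent.Helper87.TR

open Finset Pool.Agent.Helper10

/-- one modulus -/
lemma rem_le10 {ι : Type*} (E : Finset ι) (F : ι → ℕ) (Y : ℝ) (R : ℕ → ℝ) (μ : ℕ → ℕ)
    (m a Q : ℕ) (hm : 0 < m) (hm10 : m.Coprime 10) (ha : a.Coprime m)
    (hcl : ∀ M r : ℕ, 0 < M → M.Coprime 10 →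
      |((E.filter (fun e => F e ≡ r [MOD M])).card : ℝ) - Y / M| ≤ R M)
    (hB1 : ∀ q : ℕ, 0 < q → 0 < μ q ∧ μ q ∣ q ∧ (q / μ q).Coprime m)
    (hB2 : ∀ N q t : ℕ, N.Coprime m → 0 < q → 0 < t →
      (q ∣ N * μ t ↔ q / μ q ∣ N ∧ μ q ∣ t))
    (hB4 : ∀ q1 : ℕ, 0 < q1 → q1 ≤ Q →
      (((Icc 1 Q.factorial).filter (fun t => q1 ∣ t)).card : ℝ) = (Q.factorial : ℝ) / q1)
    (q : ℕ) (hq : 0 < q) (hqQ : q ≤ Q) (hq10 : q.Coprime 10) :
    |((((E.filter (fun e => F e ≡ a [MOD m])) ×ˢ Icc 1 Q.factorial).filter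
        (fun x => q ∣ F x.1 * μ x.2)).card : ℝ) - Y / (m : ℝ) * (Q.factorial : ℝ) / q| ≤
      (Q.factorial : ℝ) / (μ q) * R (m * (q / μ q)) := by
  obtain ⟨h1, h2, h3⟩ := hB1 q hq
  obtain ⟨q2, hq2⟩ := h2
  have hq2' : q / μ q = q2 := Nat.div_eq_of_eq_mul_right h1 hq2
  have hq2pos : 0 < q2 := by
    rcases Nat.eq_zero_or_pos q2 with h | h
    · rw [h, mul_zero] at hq2; omega
    · exact h
  rw [hq2'] at h3 ⊢
  have hle : μ q ≤ Q := (Nat.le_of_dvd hq ⟨q2, hq2⟩).trans hqQ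
  -- the filter is a product
  obtain ⟨r, hr1, hr2⟩ := Nat.chineseRemainder h3.symm a 0
  have hprod : ((E.filter (fun e => F e ≡ a [MOD m])) ×ˢ Icc 1 Q.factorial).filter
        (fun x => q ∣ F x.1 * μ x.2) =
      (E.filter (fun e => F e ≡ r [MOD m * q2])) ×ˢ
        ((Icc 1 Q.factorial).filter (fun t => μ q ∣ t)) := by
    ext ⟨e, t⟩
    simp only [Finset.mem_filter, Finset.mem_product, Finset.mem_Icc]
    constructor
    · rintro ⟨⟨⟨he, hea⟩, ht1, ht2⟩, hd⟩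
      have hcop : (F e).Coprime m := by
        have := hea.gcd_eq
        rw [Nat.Coprime, this]
        exact ha
      have := (hB2 (F e) q t hcop hq (by omega)).mp hd
      rw [hq2'] at this
      refine ⟨⟨he, ?_⟩, ⟨ht1, ht2⟩, this.2⟩
      rw [← Nat.modEq_and_modEq_iff_modEq_mul h3.symm]
      refine ⟨hea.trans hr1.symm, ?_⟩
      exact ((Nat.modEq_zero_iff_dvd).mpr this.1).trans hr2.symm
    · rintro ⟨⟨he, her⟩, ⟨ht1, ht2⟩, hd⟩
      rw [← Nat.modEq_and_modEq_iff_modEq_mul h3.symm] at her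
      have hea : F e ≡ a [MOD m] := her.1.trans hr1
      have hcop : (F e).Coprime m := by
        have := hea.gcd_eq
        rw [Nat.Coprime, this]
        exact ha
      refine ⟨⟨⟨he, hea⟩, ht1, ht2⟩, ?_⟩
      refine (hB2 (F e) q t hcop hq (by omega)).mpr ?_
      rw [hq2']
      exact ⟨(Nat.modEq_zero_iff_dvd).mp (her.2.trans hr2), hd⟩
  rw [hprod, Finset.card_product, Nat.cast_mul, hB4 (μ q) h1 hle]
  have hmR : (0 : ℝ) < m := by exact_mod_cast hm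
  have h1R : (0 : ℝ) < μ q := by exact_mod_cast h1
  have h2R : (0 : ℝ) < q2 := by exact_mod_cast hq2pos
  have hqR : (q : ℝ) = (μ q : ℝ) * (q2 : ℝ) := by exact_mod_cast hq2
  have hkey := hcl (m * q2) r (Nat.mul_pos hm hq2pos) (Nat.Coprime.mul_left hm10
    (Nat.Coprime.coprime_dvd_left ⟨μ q, by rw [mul_comm]; exact hq2⟩ hq10))
  have hTq : (0 : ℝ) ≤ (Q.factorial : ℝ) / (μ q) := by positivity
  have heq : ((E.filter (fun e => F e ≡ r [MOD m * q2])).card : ℝ) *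
      ((Q.factorial : ℝ) / (μ q)) - Y / (m : ℝ) * (Q.factorial : ℝ) / q =
      ((Q.factorial : ℝ) / (μ q)) *
        (((E.filter (fun e => F e ≡ r [MOD m * q2])).card : ℝ) - Y / ((m * q2 : ℕ) : ℝ)) := by
    rw [hqR]
    push_cast
    field_simp
  rw [heq, abs_mul, abs_of_nonneg hTq]
  exact mul_le_mul_of_nonneg_left hkey hTq

theorem errA_core10 {ι : Type*} (E : Finset ι) (F : ι → ℕ) (Y : ℝ) (R : ℕ → ℝ) (μ : ℕ → ℕ)
    (k m a Q : ℕ) (hm : 0 < m) (hm10 : m.Coprime 10) (ha : a.Coprime m)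
    (hR : ∀ M : ℕ, 0 ≤ R M)
    (hcl : ∀ M r : ℕ, 0 < M → M.Coprime 10 →
      |((E.filter (fun e => F e ≡ r [MOD M])).card : ℝ) - Y / M| ≤ R M)
    (hB1 : ∀ q : ℕ, 0 < q → 0 < μ q ∧ μ q ∣ q ∧ (q / μ q).Coprime m)
    (hB2 : ∀ N q t : ℕ, N.Coprime m → 0 < q → 0 < t →
      (q ∣ N * μ t ↔ q / μ q ∣ N ∧ μ q ∣ t))
    (hB4 : ∀ q1 : ℕ, 0 < q1 → q1 ≤ Q →
      (((Icc 1 Q.factorial).filter (fun t => q1 ∣ t)).card : ℝ) = (Q.factorial : ℝ) / q1) :
    ∑ q ∈ (Icc 1 Q).filter (fun q => q.Coprime 10), ((tau q : ℝ)) ^ k *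
      |((((E.filter (fun e => F e ≡ a [MOD m])) ×ˢ Icc 1 Q.factorial).filter
        (fun x => q ∣ F x.1 * μ x.2)).card : ℝ) - Y / (m : ℝ) * (Q.factorial : ℝ) / q| ≤
      (Q.factorial : ℝ) * (hsum k Q *
        ∑ q ∈ (Icc 1 (m * Q)).filter (fun q => q.Coprime 10), ((tau q : ℝ)) ^ k * R q) := by
  classical
  -- termwise
  have hterm : ∀ q ∈ (Icc 1 Q).filter (fun q => q.Coprime 10), ((tau q : ℝ)) ^ k *
      |((((E.filter (fun e => F e ≡ a [MOD m])) ×ˢ Icc 1 Q.factorial).filter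
        (fun x => q ∣ F x.1 * μ x.2)).card : ℝ) - Y / (m : ℝ) * (Q.factorial : ℝ) / q| ≤
      (Q.factorial : ℝ) * ((((tau (μ q) : ℝ)) ^ k / (μ q)) *
        (((tau (m * (q / μ q)) : ℝ)) ^ k * R (m * (q / μ q)))) := by
    intro q hq
    rw [Finset.mem_filter, Finset.mem_Icc] at hq
    obtain ⟨⟨hq1, hqQ⟩, hq10⟩ := hq
    have h := rem_le10 E F Y R μ m a Q hm hm10 ha hcl hB1 hB2 hB4 q (by omega) hqQ hq10
    obtain ⟨h1, h2, h3⟩ := hB1 q (by omega)
    have hq2pos : 0 < q / μ q := Nat.div_pos (Nat.le_of_dvd (by omega) h2) h1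
    have htau : (tau q : ℝ) ≤ (tau (μ q) : ℝ) * (tau (m * (q / μ q)) : ℝ) := by
      have e1 : tau q ≤ tau (μ q) * tau (q / μ q) := by
        have := tau_mul_le (μ q) (q / μ q)
        rwa [Nat.mul_div_cancel' h2] at this
      have e2 : tau (q / μ q) ≤ tau (m * (q / μ q)) :=
        tau_le_of_dvd (Dvd.intro_left m rfl) (Nat.mul_pos hm hq2pos).ne'
      exact_mod_cast e1.trans (Nat.mul_le_mul_left _ e2)
    have htauk : ((tau q : ℝ)) ^ k ≤
        ((tau (μ q) : ℝ)) ^ k * ((tau (m * (q / μ q)) : ℝ)) ^ k := by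
      rw [← mul_pow]
      exact pow_le_pow_left₀ (by positivity) htau k
    have h1R : (0 : ℝ) < μ q := by exact_mod_cast h1
    have hRn := hR (m * (q / μ q))
    calc _ ≤ (((tau (μ q) : ℝ)) ^ k * ((tau (m * (q / μ q)) : ℝ)) ^ k) *
          ((Q.factorial : ℝ) / (μ q) * R (m * (q / μ q))) := by
          apply mul_le_mul htauk h (abs_nonneg _) (by positivity)
      _ = _ := by
          field_simp
  refine (Finset.sum_le_sum hterm).trans ?_
  rw [← Finset.mul_sum]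
  apply mul_le_mul_of_nonneg_left _ (by positivity)
  unfold hsum
  rw [Finset.sum_mul_sum, ← Finset.sum_product']
  rw [← Finset.sum_image (s := (Icc 1 Q).filter (fun q => q.Coprime 10))
      (g := fun q : ℕ => (μ q, m * (q / μ q)))
      (f := fun p : ℕ × ℕ => (((tau p.1 : ℝ)) ^ k / (p.1 : ℝ)) *
        (((tau p.2 : ℝ)) ^ k * R p.2))]
  · apply Finset.sum_le_sum_of_subset_of_nonneg
    · intro p hp
      rw [Finset.mem_image] at hp
      obtain ⟨q, hq, rfl⟩ := hp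
      rw [Finset.mem_filter, Finset.mem_Icc] at hq
      obtain ⟨⟨hq1, hqQ⟩, hq10⟩ := hq
      obtain ⟨h1, h2, h3⟩ := hB1 q (by omega)
      have hq2pos : 0 < q / μ q := Nat.div_pos (Nat.le_of_dvd (by omega) h2) h1
      rw [Finset.mem_product, Finset.mem_filter, Finset.mem_Icc, Finset.mem_Icc]
      refine ⟨⟨h1, (Nat.le_of_dvd (by omega) h2).trans hqQ⟩, ⟨Nat.mul_pos hm hq2pos, ?_⟩, ?_⟩
      · exact Nat.mul_le_mul_left m ((Nat.div_le_self _ _).trans hqQ)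
      · exact Nat.Coprime.mul_left hm10
          (Nat.Coprime.coprime_dvd_left (Nat.div_dvd_of_dvd h2) hq10)
    · intro p _ _
      have := hR p.2
      positivity
  · intro x hx y hy hxy
    rw [Finset.mem_coe, Finset.mem_filter, Finset.mem_Icc] at hx hy
    simp only [Prod.mk.injEq] at hxy
    obtain ⟨e1, e2⟩ := hxy
    have e3 : x / μ x = y / μ y := Nat.eq_of_mul_eq_mul_left hm e2
    have hx2 := (hB1 x (by omega)).2.1
    have hy2 := (hB1 y (by omega)).2.1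
    calc x = μ x * (x / μ x) := (Nat.mul_div_cancel' hx2).symm
      _ = μ y * (y / μ y) := by rw [e3, e1]
      _ = y := Nat.mul_div_cancel' hy2

end Pool.Agent.Helper87.TR
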